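import Pool.Agent.H570R2.ZamAsymp

/-!
The zero-information Arthur-Merlin complexity of `INDEX_n` is at most
`2 ^ (54 √(log₂ n · log₂ log₂ n)) = n ^ o(1)`; in particular it is not of order `n`.

`AMProtocol`, `AMProtocol.IsZAM` and `ZAM` are defined in `Pool.Agent.H570R2.ZamDefs` (a file of the
starting point); `INDEX` is defined here.
-/

set_option autoImplicit false

namespace Pool.Agent.Results.MP_63af43_lc.IndexSubpolynomial

open Filter Pool.Agent.H570R2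

/-- `INDEX_n : {0,1}^n × [n] → {0,1}`, `INDEX_n(x, y) = x_y`. -/
def INDEX (n : ℕ) (x : Fin n → Bool) (y : Fin n) : Bool := x y

theorem index_le (n : ℕ) (hn : 4 ≤ n) :
    ZAM (INDEX n) ≤ ((⌊(2 : ℝ) ^ (54 * Real.sqrt
      (Real.logb 2 n * Real.logb 2 (Real.logb 2 n)))⌋₊ : ℕ) : ℕ∞) :=
  ZAM_le_of_card_le (INDEX n) n hn (by simp)

theorem index_le_pow (ε : ℝ) (hε : 0 < ε) :
    ∀ᶠ n : ℕ in atTop, ZAM (INDEX n) ≤ ((⌊(n : ℝ) ^ ε⌋₊ : ℕ) : ℕ∞) := by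
  have hlog : Tendsto (fun n : ℕ => Real.logb 2 (n : ℝ)) atTop atTop :=
    (Real.tendsto_logb_atTop (by norm_num)).comp tendsto_natCast_atTop_atTop
  have h1 := hlog.eventually (eventually_sqrt_le 54 ε (by norm_num) hε)
  filter_upwards [h1, eventually_ge_atTop 4] with n hn hn4
  refine (index_le n hn4).trans ?_
  rw [Nat.cast_le]
  apply Nat.floor_le_floor
  have hn0 : (0 : ℝ) < n := by
    have : (4 : ℝ) ≤ n := by exact_mod_cast hn4
    linarith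
  calc (2 : ℝ) ^ (54 * Real.sqrt (Real.logb 2 n * Real.logb 2 (Real.logb 2 n)))
      ≤ (2 : ℝ) ^ (ε * Real.logb 2 n) :=
        Real.rpow_le_rpow_of_exponent_le (by norm_num) hn
    _ = (n : ℝ) ^ ε := by
        rw [mul_comm, Real.rpow_mul (by norm_num), Real.rpow_logb (by norm_num) (by norm_num) hn0]

/-- The zero-information Arthur-Merlin complexity of `INDEX_n` is at most
`2 ^ (54 √(log₂ n · log₂ log₂ n))` for `n ≥ 4`, hence at most `n ^ ε` for every `ε > 0` and all large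
`n`; consequently `ZAM(INDEX_n) = o(n)`, so that the conjecture `ZAM(INDEX_n) = Θ(n)` is false. -/
theorem result :
    (∀ n : ℕ, 4 ≤ n → ZAM (INDEX n) ≤ ((⌊(2 : ℝ) ^ (54 * Real.sqrt
      (Real.logb 2 n * Real.logb 2 (Real.logb 2 n)))⌋₊ : ℕ) : ℕ∞)) ∧
    (∀ ε : ℝ, 0 < ε → ∀ᶠ n : ℕ in atTop, ZAM (INDEX n) ≤ ((⌊(n : ℝ) ^ ε⌋₊ : ℕ) : ℕ∞)) ∧
    (∀ c : ℝ, 0 < c → ∀ᶠ n : ℕ in atTop, ∃ k : ℕ, ZAM (INDEX n) = (k : ℕ∞) ∧ (k : ℝ) ≤ c * n) := by
  refine ⟨index_le, index_le_pow, ?_⟩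
  intro c hc
  have h1 := index_le_pow (1 / 2) (by norm_num)
  have h2 : ∀ᶠ n : ℕ in atTop, (1 / c) ^ 2 ≤ (n : ℝ) :=
    tendsto_natCast_atTop_atTop.eventually (eventually_ge_atTop _)
  filter_upwards [h1, h2, eventually_ge_atTop 1] with n hn hn2 hn1
  obtain ⟨k, hk⟩ := ENat.ne_top_iff_exists.1 (ne_top_of_le_ne_top (ENat.natCast_ne_top _) hn)
  refine ⟨k, hk.symm, ?_⟩
  rw [← hk, Nat.cast_le] at hn
  have hn0 : (0 : ℝ) < n := by exact_mod_cast (by omega : 0 < n)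
  have h3 : (k : ℝ) ≤ (n : ℝ) ^ ((1 : ℝ) / 2) := by
    refine le_trans (by exact_mod_cast hn) (Nat.floor_le (by positivity))
  rw [← Real.sqrt_eq_rpow] at h3
  have h4 : 1 / c ≤ Real.sqrt n := by
    apply Real.le_sqrt_of_sq_le
    exact hn2
  have h5 : Real.sqrt n * Real.sqrt n = n := Real.mul_self_sqrt hn0.le
  have h6 : 1 ≤ c * Real.sqrt n := by
    rw [div_le_iff₀ hc] at h4
    linarith
  have h7 : 0 ≤ Real.sqrt n := Real.sqrt_nonneg _
  calc (k : ℝ) ≤ Real.sqrt n := h3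
    _ ≤ (c * Real.sqrt n) * Real.sqrt n := by nlinarith
    _ = c * n := by rw [mul_assoc, h5]

end Pool.Agent.Results.MP_63af43_lc.IndexSubpolynomial
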